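import Mathlib

set_option autoImplicit false

open Set Filter Topology BoundedContinuousFunction

namespace Pool.Agent.Results.MP_388f8c_an.Gong

/-- triples (s, y, r) with y a bounded summable sequence of sum r -/
def sp : Submodule ℝ (ℝ × (ℕ →ᵇ ℝ) × ℝ) where
  carrier := {p | HasSum (fun n => p.2.1 n) p.2.2}
  add_mem' := fun h1 h2 => HasSum.add h1 h2
  zero_mem' := hasSum_zero
  smul_mem' := fun c _ h => HasSum.mul_left c h

noncomputable def yy (N : ℕ) : ℕ →ᵇ ℝ :=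
  ofNormedAddCommGroupDiscrete (fun n => if n < N then 1 else 0) 1
    (fun n => by split_ifs <;> simp)

theorem yy_norm (N : ℕ) : ‖yy N‖ ≤ 1 := (norm_le zero_le_one).2 (fun n => by
  simp only [yy, coe_ofNormedAddCommGroupDiscrete]; split_ifs <;> simp)

theorem yy_sum (N : ℕ) : HasSum (fun n => yy N n) (N : ℝ) := by
  have : HasSum (fun n => yy N n) (∑ n ∈ Finset.range N, yy N n) :=
    hasSum_sum_of_ne_finset_zero (fun b hb => by
      simp only [yy, coe_ofNormedAddCommGroupDiscrete]; rw [if_neg (by simpa using hb)])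
  rwa [Finset.sum_congr rfl (g := fun _ => (1 : ℝ)) (fun n hn => by
    simp only [yy, coe_ofNormedAddCommGroupDiscrete]; rw [if_pos (by simpa using hn)]),
    Finset.sum_const, Finset.card_range, nsmul_eq_mul, mul_one] at this

theorem aux1 {X : Type} [NormedAddCommGroup X] {x : X} {ε : ℝ} (h : x ∉ Metric.closedBall 0 ε) :
    ε < ‖x‖ := by rwa [mem_closedBall_zero_iff, not_le] at h

theorem aux2 {X : Type} [NormedAddCommGroup X] {B : Set X} (h : Bornology.IsBounded B) :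
    ∃ R > 0, ∀ x ∈ B, ‖x‖ ≤ R := h.exists_pos_norm_le

theorem aux3 {X : Type} [NormedAddCommGroup X] [NormedSpace ℝ X] (l : ℝ) (hl : 0 ≤ l) (x : X) :
    ‖l • x‖ = l * ‖x‖ := by rw [norm_smul, Real.norm_of_nonneg hl]

theorem aux4 {X : Type} [NormedAddCommGroup X] (x : X) : dist 0 x = ‖x‖ := dist_zero_left x

theorem result : ∃ (X : Type) (_ : NormedAddCommGroup X) (_ : NormedSpace ℝ X) (C : Set X),
    C.Nonempty ∧ (∀ x ∈ C, ∀ y ∈ C, x + y ∈ C) ∧ (∀ t : ℝ, 0 ≤ t → ∀ x ∈ C, t • x ∈ C) ∧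
    (∀ x ∈ C, -x ∈ C → x = 0) ∧ IsClosed C ∧
    (∀ ε : ℝ, 0 < ε → ε < 1 →
      (0 : WeakSpace ℝ X) ∉ closure (toWeakSpace ℝ X '' (C \ Metric.closedBall 0 ε))) ∧
    ¬ ∃ B : Set X, B ⊆ C ∧ B.Nonempty ∧ Convex ℝ B ∧ (0 : X) ∉ closure B ∧
      (∀ c ∈ C, c ≠ 0 → ∃! p : ℝ × X, 0 < p.1 ∧ p.2 ∈ B ∧ c = p.1 • p.2) ∧
      Bornology.IsBounded B := by
  refine ⟨sp, inferInstance, inferInstance, {x | ‖x.1.2.1‖ ≤ x.1.1}, ⟨0, by simp⟩,
    fun x hx y hy => (norm_add_le _ _).trans (add_le_add hx hy), fun t ht x hx => ?_,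
    fun x hx hx' => ?_, isClosed_le (by fun_prop) (by fun_prop), fun ε hε _ h => ?_, ?_⟩
  · show ‖t • x.1.2.1‖ ≤ t * x.1.1
    rw [norm_smul, Real.norm_of_nonneg ht]
    exact mul_le_mul_of_nonneg_left hx ht
  · have h1 : ‖x.1.2.1‖ ≤ x.1.1 := hx
    have h2 : ‖-x.1.2.1‖ ≤ -x.1.1 := hx'
    rw [norm_neg] at h2
    have h3 : x.1.2.1 = 0 := norm_le_zero_iff.1 (by linarith)
    have h4 : x.1.1 = 0 := by linarith [norm_nonneg x.1.2.1]
    have h5 : HasSum (fun n => x.1.2.1 n) x.1.2.2 := x.2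
    rw [h3] at h5
    have h6 : x.1.2.2 = 0 := h5.unique hasSum_zero
    exact Subtype.ext (Prod.ext h4 (Prod.ext h3 h6))
  · let f : StrongDual ℝ sp := (ContinuousLinearMap.fst ℝ ℝ _).comp sp.subtypeL
    let g : StrongDual ℝ sp :=
      ((ContinuousLinearMap.snd ℝ _ ℝ).comp (ContinuousLinearMap.snd ℝ ℝ _)).comp sp.subtypeL
    have hc : ∀ k : StrongDual ℝ sp, Continuous (fun x : WeakSpace ℝ sp =>
        k ((toWeakSpace ℝ sp).symm x)) := fun k => WeakBilin.eval_continuous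
          (topDualPairing ℝ sp).flip k
    have hcl : IsClosed {x : WeakSpace ℝ sp |
        ε ≤ max |f ((toWeakSpace ℝ sp).symm x)| |g ((toWeakSpace ℝ sp).symm x)|} :=
      isClosed_le continuous_const ((hc f).abs.max (hc g).abs)
    have h2 := closure_minimal (t := {x : WeakSpace ℝ sp |
        ε ≤ max |f ((toWeakSpace ℝ sp).symm x)| |g ((toWeakSpace ℝ sp).symm x)|}) (by
      rintro _ ⟨x, ⟨hx, hx'⟩, rfl⟩
      have h1 : ‖x.1.2.1‖ ≤ x.1.1 := hx
      replace hx' := aux1 hx'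
      have h3 : ‖x‖ = max |x.1.1| (max ‖x.1.2.1‖ |x.1.2.2|) := rfl
      show ε ≤ max |x.1.1| |x.1.2.2|
      refine hx'.le.trans ?_
      rw [h3]
      exact max_le (le_max_left _ _) (max_le ((h1.trans (le_abs_self _)).trans (le_max_left _ _))
        (le_max_right _ _))) hcl h
    simp only [mem_ofPred_eq, map_zero, abs_zero, max_self] at h2
    linarith
  · rintro ⟨B, -, -, hconv, h0, hrep, hbd⟩
    obtain ⟨R, hR0, hR⟩ := aux2 hbd
    apply h0
    rw [Metric.mem_closure_iff]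
    intro δ hδ
    obtain ⟨N, hN⟩ := exists_nat_gt (R / δ)
    have hN0 : (0 : ℝ) < N := lt_trans (by positivity) hN
    let c : sp := ⟨(1, yy N, N), yy_sum N⟩
    let c' : sp := ⟨(1, -yy N, -N), (yy_sum N).neg⟩
    have big : ∀ (x : sp) (l : ℝ) (b : sp), 0 < l → b ∈ B → x = l • b → |x.1.2.2| = N →
        (N : ℝ) ≤ l * R := fun x l b hl hb hx hn => by
      have h1 : |x.1.2.2| ≤ ‖x‖ := (norm_snd_le x.1.2).trans (norm_snd_le x.1)
      rw [hn, hx] at h1
      exact (h1.trans (aux3 l hl.le b).le).trans (mul_le_mul_of_nonneg_left (hR b hb) hl.le)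
    obtain ⟨⟨l, b⟩, ⟨hl, hb, e⟩, -⟩ := hrep c (yy_norm N)
      (fun h => one_ne_zero (congrArg (fun x : sp => x.1.1) h))
    obtain ⟨⟨l', b'⟩, ⟨hl', hb', e'⟩, -⟩ := hrep c' (by
      show ‖-yy N‖ ≤ 1
      rw [norm_neg]; exact yy_norm N) (fun h => one_ne_zero (congrArg (fun x : sp => x.1.1) h))
    simp only at hl hb e hl' hb' e'
    have b1 := big c l b hl hb e (abs_of_pos hN0)
    have b2 := big c' l' b' hl' hb' e' (by show |-(N : ℝ)| = N; rw [abs_neg, abs_of_pos hN0])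
    have hs : 0 < l + l' := by linarith
    refine ⟨(l / (l + l')) • b + (l' / (l + l')) • b', hconv hb hb' (by positivity) (by positivity)
      (by field_simp), ?_⟩
    have e2 : (l / (l + l')) • b + (l' / (l + l')) • b' = (l + l')⁻¹ • (c + c') := by
      rw [e, e', smul_add, smul_smul, smul_smul, div_eq_inv_mul, div_eq_inv_mul]
    have e3 : ‖c + c'‖ = 2 := by
      show ‖((1, yy N, (N : ℝ)) + (1, -yy N, -(N : ℝ)) : ℝ × (ℕ →ᵇ ℝ) × ℝ)‖ = 2
      simp [Prod.norm_def]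
      norm_num
    rw [aux4, e2]
    refine lt_of_eq_of_lt (aux3 _ (inv_nonneg.2 hs.le) (c + c')) ?_
    rw [e3, inv_mul_lt_iff₀ hs]
    rw [div_lt_iff₀ hδ] at hN
    have : R * 2 < R * ((l + l') * δ) := by nlinarith
    exact lt_of_mul_lt_mul_left this hR0.le

end Pool.Agent.Results.MP_388f8c_an.Gong
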